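import Pool.Agent.Helper74.NS.Defs

/-!
# The length of a computation without windows with two blind parts
-/

namespace Pool.Agent.Helper1.NE

open Pool.Agent.Helper74.NS (Expands)

/-- `F i w` = the nodes of the row `i` which are full in the window `w`. A node of the row `i + 1` is complete in `w` if
all the nodes `g s u` are full in `w`. If every cut window has fewer than `a` full nodes which are complete in neither
part, then the length doubles with every row. -/
theorem cut_abs {B : Type} {n d a c R : ℕ} {g : Fin d → Equiv.Perm (Fin n)} (F : ℕ → List B → Finset (Fin n))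
    (l : List B) (ha : 1 ≤ a) (hE : Expands g a) (hnil : ∀ i, F i [] = ∅)
    (h0 : ∀ p w q, l = p ++ w ++ q → 4 * a ≤ (F 0 w).card → c + 1 ≤ w.length)
    (hh : ∀ i < R, ∀ p w1 w2 q, l = p ++ (w1 ++ w2) ++ q →
      ((F (i + 1) (w1 ++ w2)).filter (fun u => (∃ s, g s u ∉ F i w1) ∧ ∃ s, g s u ∉ F i w2)).card < a)
    (hl : 4 * a ≤ (F R l).card) : 2 ^ R * c + 1 ≤ l.length := by
  classical
  -- complete nodes have full children
  have hcomp : ∀ (i : ℕ) (w : List B) (X : Finset (Fin n)), (∀ u ∈ X, ∀ s, g s u ∈ F i w) → a ≤ X.card →
      4 * a ≤ (F i w).card := by
    intro i w X hX hc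
    refine (hE X hc).trans (Finset.card_le_card ?_)
    intro v hv
    obtain ⟨s, u, hu, rfl⟩ := (Finset.mem_filter.1 hv).2
    exact hX u hu s
  have main : ∀ i ≤ R, ∀ p w q, l = p ++ w ++ q → 4 * a ≤ (F i w).card → 2 ^ i * c + 1 ≤ w.length := by
    intro i
    induction i with
    | zero =>
      intro _ p w q hw h
      simpa using h0 p w q hw h
    | succ i ih =>
      intro hi p w q hw h
      -- for every cut one of the parts has many complete nodes
      have hcut : ∀ t : ℕ, 4 * a ≤ (F i (w.take t)).card ∨ 4 * a ≤ (F i (w.drop t)).card := by
        intro t
        by_contra hc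
        push Not at hc
        obtain ⟨hc1, hc2⟩ := hc
        set X := F (i + 1) w with hX
        have e1 : (X.filter (fun u => ∀ s, g s u ∈ F i (w.take t))).card < a := by
          by_contra h1
          push Not at h1
          exact absurd (hcomp i (w.take t) _ (fun u hu => (Finset.mem_filter.1 hu).2) h1) (by omega)
        have e2 : (X.filter (fun u => ∀ s, g s u ∈ F i (w.drop t))).card < a := by
          by_contra h1
          push Not at h1
          exact absurd (hcomp i (w.drop t) _ (fun u hu => (Finset.mem_filter.1 hu).2) h1) (by omega)
        have e3 := hh i (by omega) p (w.take t) (w.drop t) q (by rw [List.take_append_drop]; exact hw)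
        rw [List.take_append_drop, ← hX] at e3
        have e4 : X ⊆ X.filter (fun u => ∀ s, g s u ∈ F i (w.take t)) ∪
            (X.filter (fun u => ∀ s, g s u ∈ F i (w.drop t)) ∪
              X.filter (fun u => (∃ s, g s u ∉ F i (w.take t)) ∧ ∃ s, g s u ∉ F i (w.drop t))) := by
          intro u hu
          simp only [Finset.mem_union, Finset.mem_filter, hu, true_and]
          by_cases h1 : ∀ s, g s u ∈ F i (w.take t)
          · exact Or.inl h1
          · by_cases h2 : ∀ s, g s u ∈ F i (w.drop t)
            · exact Or.inr (Or.inl h2)
            · push Not at h1 h2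
              exact Or.inr (Or.inr ⟨h1, h2⟩)
        have e5 := (Finset.card_le_card e4).trans ((Finset.card_union_le _ _).trans
          (Nat.add_le_add_left (Finset.card_union_le _ _) _))
        omega
      have hex : ∃ t, 4 * a ≤ (F i (w.take t)).card := by
        refine ⟨w.length, ?_⟩
        rcases hcut w.length with h1 | h1
        · exact h1
        · rw [List.drop_length, hnil, Finset.card_empty] at h1
          omega
      set t := Nat.find hex with ht
      have ht1 : 4 * a ≤ (F i (w.take t)).card := Nat.find_spec hex
      have ht0 : 1 ≤ t := by
        by_contra h1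
        have h2 : t = 0 := by omega
        rw [h2, List.take_zero, hnil, Finset.card_empty] at ht1
        omega
      have ht2 : 4 * a ≤ (F i (w.drop (t - 1))).card := by
        rcases hcut (t - 1) with h1 | h1
        · exact absurd h1 (Nat.find_min hex (by omega))
        · exact h1
      have htl : t ≤ w.length := by
        refine Nat.find_min' hex ?_
        rcases hcut w.length with h1 | h1
        · exact h1
        · rw [List.drop_length, hnil, Finset.card_empty] at h1
          omega
      have l1 := ih (by omega) p (w.take t) (w.drop t ++ q)
        (by
          rw [hw]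
          conv_lhs => rw [← List.take_append_drop t w]
          simp only [List.append_assoc]) ht1
      have l2 := ih (by omega) (p ++ w.take (t - 1)) (w.drop (t - 1)) q
        (by
          rw [hw]
          conv_lhs => rw [← List.take_append_drop (t - 1) w]
          simp only [List.append_assoc]) ht2
      rw [List.length_take, Nat.min_eq_left htl] at l1
      rw [List.length_drop] at l2
      rw [pow_succ, Nat.mul_right_comm]
      omega
  exact main R le_rfl [] l [] (by simp) hl

end Pool.Agent.Helper1.NE
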