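import Pool.Agent.Helper1.NE.Cut
import Pool.Agent.Helper74.NE.Defs

/-!
# The length of a computation
-/

namespace Pool.Agent.Helper1.NE

open Pool.Agent.Helper19.NF Pool.Agent.Helper74.NW Pool.Agent.Helper74.NE
open Pool.Agent.Helper74.NS (Expands)

variable {n d m : ℕ} {B : Type} [AddCommGroup B] [NeZero m]

theorem full_nil (g : Fin d → Equiv.Perm (Fin n)) (x0 : Fin n × Fin m → B)
    (I : B → Fin d × Fin m → B) (i : ℕ) : full g x0 I i [] = ∅ := by
  classical
  unfold full
  refine Finset.filter_eq_empty_iff.2 fun u _ hu => ?_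
  exact absurd (hu 0) List.not_mem_nil

/-- Full nodes of one row need many queries. -/
theorem card_full_le {g : Fin d → Equiv.Perm (Fin n)} {x0 : Fin n × Fin m → B} {i : ℕ}
    {I : B → Fin d × Fin m → B} (hI : CF (fine g) x0 i I) (w : List B) :
    (full g x0 I i w).card * m ≤ w.length := by
  classical
  have h1 : ((full g x0 I i w) ×ˢ (Finset.univ : Finset (Fin m))).card ≤ w.toFinset.card := by
    refine Finset.card_le_card_of_injOn (fun p => val (fine g) x0 I i p) ?_ ?_
    · intro p hp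
      rw [Finset.mem_coe, Finset.mem_product] at hp
      rw [Finset.mem_coe, List.mem_toFinset]
      exact (Finset.mem_filter.1 hp.1).2 p.2
    · intro p _ q _ hpq
      exact (hI i i p q le_rfl le_rfl hpq).2
  rw [Finset.card_product, Finset.card_univ, Fintype.card_fin] at h1
  exact h1.trans (List.toFinset_card_le w)

/-- E4, a little stronger. -/
theorem long2 {g : Fin d → Equiv.Perm (Fin n)} {x0 : Fin n × Fin m → B} {R a : ℕ}
    {I : B → Fin d × Fin m → B} (ha : 1 ≤ a) (hE : Expands g a) (hI : CF (fine g) x0 R I) (l : List B)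
    (hl : 4 * a ≤ (full g x0 I R l).card)
    (hh : ∀ i < R, ∀ p w₁ w₂ q, l = p ++ w₁ ++ w₂ ++ q → (bad g x0 I i w₁ w₂).card < a) :
    2 ^ R * (4 * a * m - 1) < l.length := by
  classical
  have h2 : 1 ≤ m := Nat.one_le_iff_ne_zero.2 (NeZero.ne _)
  have h3 : ∀ (i : ℕ) (w : List B) (u : Fin n), (∃ s, g s u ∉ full g x0 I i w) ↔ u ∉ comp g x0 I i w := by
    intro i w u
    unfold full comp
    simp only [Finset.mem_filter, Finset.mem_univ, true_and, not_forall, Prod.exists]
  refine Nat.lt_of_succ_le (cut_abs (g := g) (a := a) (fun i w => full g x0 I i w) l ha hE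
    (full_nil g x0 I) ?_ ?_ hl)
  · intro p w q _ h4
    have h5 := card_full_le (hI.mono (Nat.zero_le R)) w
    have h6 : 4 * a * m ≤ (full g x0 I 0 w).card * m := Nat.mul_le_mul_right _ h4
    have h7 : 1 ≤ 4 * a * m := Nat.mul_pos (by omega) h2
    omega
  · intro i hi p w₁ w₂ q hw
    have h4 := hh i hi p w₁ w₂ q (by rw [hw]; simp only [List.append_assoc])
    unfold bad at h4
    simp only [← h3] at h4
    convert h4 using 2

/-- E4: without bad cuts the computation is long. -/
theorem long {g : Fin d → Equiv.Perm (Fin n)} {x0 : Fin n × Fin m → B} {R a : ℕ}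
    {I : B → Fin d × Fin m → B} (ha : 1 ≤ a) (hE : Expands g a) (hI : CF (fine g) x0 R I) (l : List B)
    (hl : 4 * a ≤ (full g x0 I R l).card)
    (hh : ∀ i < R, ∀ p w₁ w₂ q, l = p ++ w₁ ++ w₂ ++ q → (bad g x0 I i w₁ w₂).card < a) : 2 ^ R < l.length := by
  have h2 : 1 ≤ m := Nat.one_le_iff_ne_zero.2 (NeZero.ne _)
  have h1 := long2 ha hE hI l hl hh
  have h3 : 4 ≤ 4 * a * m := by nlinarith
  have h4 : 2 ^ R * 1 ≤ 2 ^ R * (4 * a * m - 1) := Nat.mul_le_mul_left _ (by omega)
  omega

end Pool.Agent.Helper1.NE
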