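import Mathlib
import Pool.Agent.Helper79.TY.Rate
import Pool.Agent.Helper1.BX.Main2
import Pool.Agent.Helper1.BX.Space
import Pool.Agent.Helper29.AC.Cube2
import Pool.Agent.Helper45.AC.Xor
import Pool.Agent.Helper1.TY.Final2

/-!
MP_12a1af_nt (Erdős–Turán): if a set of natural numbers, or a choice of representations, is easy to
compute, then some number has many representations.
-/

namespace Pool.Agent.Results.MP_12a1af_nt.NoEasyChoice

open Filter
open Pool.Agent.Helper72.AC (rep num Circ)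
open Pool.Agent.Helper45.AC (Lin XCirc)
open Pool.Agent.Helper82.CF (IsCircuit)
open Pool.Agent.Helper1.TY (Cost)

/-- `rep A n` is the number of ordered pairs `(a, b) ∈ A × A` with `a + b = n`; `num x` is the
number with the binary digits `x`.

(1) `IsCircuit s S`: each of the finite sets `S 0, ..., S (s-1)` is a single point or the union or
the sumset of two earlier ones. If such a circuit computes a set `S` of elements `≤ x` of `A`,
`rep A n ≥ |S| ^ (1 / (16 log (s + 1)))` for some `n ≤ 2 x`; if it computes a set of pairs of such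
elements, the same holds with the square root.

(2) `Circ n S d g`: the Boolean function `g` of `n` variables has a circuit of depth `d` and fan-in
`S`. If the `n` digits of `f N` are computed by such circuits, `S = n ^ K`, from the digits of `N`,
and `f N` and `N - f N` are in `A` for at least `2 ^ n / n ^ K` of the `N < 2 ^ n`, then
`rep A m ≥ exp (n ^ (1 - ε))` for some `m < 2 ^ (n + 1)`, if `n ≥ n₀(d, K, ε)`.

(3) `XCirc L`: `L` is a list of AND gates, whose inputs are XORs (`Lin`) of variables, constants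
and earlier gates. If the digits of `f N` are such XORs and `f N` and `N - f N` are in `A` for at
least `(1 + δ) 2 ^ (n - 1)` of the `N < 2 ^ n`, then `(rep A m) ^ 2 ≥ δ 2 ^ ((n - 11 |L|) / 8)` for
some `m < 2 ^ (n + 1)`.

(4) `Cost q t d n A P`: at least `q ^ (d n)` of the `t`-tuples of elements of `A` below `q ^ n` are
recognised by a nondeterministic one-tape machine with time times logarithm of the number of states
at most `P`. Then `rep A N ≥ exp (c n ^ 2 / P)` for some `N < 2 q ^ n`, and this is sharp for all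
costs between `n` and `n ^ 2`. -/
theorem result :
    (∀ (A : Set ℕ) (x s : ℕ) (S : ℕ → Finset ℤ), IsCircuit s S → ∀ i < s,
      (∀ z ∈ S i, ∃ a ∈ A, a ≤ x ∧ (a : ℤ) = z) →
      ∃ n ≤ 2 * x, ((S i).card : ℝ) ^ (1 / (16 * Real.log (s + 1))) ≤ rep A n) ∧
    (∀ (A : Set ℕ) (x s : ℕ) (T : ℕ → Finset (ℤ × ℤ)), IsCircuit s T → ∀ i < s,
      (∀ z ∈ T i, ∃ a ∈ A, ∃ b ∈ A, a ≤ x ∧ b ≤ x ∧ z = ((a : ℤ), (b : ℤ))) →
      ∃ n ≤ 2 * x, (√((T i).card : ℝ)) ^ (1 / (16 * Real.log (s + 1))) ≤ rep A n) ∧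
    (∀ (d K : ℕ) (ε : ℝ), 0 < ε → ∀ᶠ n : ℕ in atTop, ∀ (A : Set ℕ) (f : ℕ → ℕ),
      (∀ i < n, Circ n (n ^ K) d fun x => (f (num x)).testBit i) →
      (2 : ℝ) ^ n ≤ (n : ℝ) ^ K * Set.ncard {N | N < 2 ^ n ∧ f N ≤ N ∧ f N ∈ A ∧ N - f N ∈ A} →
        ∃ m < 2 ^ (n + 1), Real.exp ((n : ℝ) ^ (1 - ε)) ≤ rep A m) ∧
    (∀ (n : ℕ) (A : Set ℕ) (f : ℕ → ℕ) (L : List ((Fin n → Bool) → Bool)) (δ : ℝ),
      XCirc L → (∀ i < n, Lin L fun x => (f (num x)).testBit i) →
      (1 + δ) / 2 * 2 ^ n ≤ Set.ncard {N | N < 2 ^ n ∧ f N ≤ N ∧ f N ∈ A ∧ N - f N ∈ A} →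
        ∃ m < 2 ^ (n + 1), δ * (2 : ℝ) ^ (((n : ℝ) - 11 * L.length) / 8) ≤ (rep A m : ℝ) ^ 2) ∧
    (∀ (q t : ℕ) (d : ℝ), 2 ≤ q → 1 ≤ t → 0 < d → ∃ c C : ℝ, 0 < c ∧ 0 < C ∧ ∀ n : ℕ, 1 ≤ n →
      (∀ (A : Set ℕ) (P : ℝ), Cost q t d n A P →
        ∃ N < 2 * q ^ n, Real.exp (c * n ^ 2 / P) ≤ rep A N) ∧
      (2 * d < t → ∀ P : ℝ, n ≤ P → P ≤ n ^ 2 →
        ∃ A : Set ℕ, Cost q t d n A (C * P) ∧
          ∀ N, (rep A N : ℝ) ≤ Real.exp (C * n ^ 2 / P))) := by
  refine ⟨fun A x s S hS i hi hz => ?_, fun A x s T hT i hi hz => ?_,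
    fun d K ε hε => Pool.Agent.Helper1.BX.mainStmt2 Pool.Agent.Helper29.AC.cubeStmt2 d K ε hε,
    Pool.Agent.Helper45.AC.xorStmt Pool.Agent.Helper1.BX.spaceStmt, fun q t d hq ht hd => ?_⟩
  · obtain ⟨n, hn, h⟩ := Pool.Agent.Helper79.TY.rate A x s S i hS hi hz
    refine ⟨n, hn, ?_⟩
    rw [← div_div]
    exact h
  · obtain ⟨n, hn, h⟩ := Pool.Agent.Helper79.TY.rate_pairs A x s T i hT hi hz
    refine ⟨n, hn, ?_⟩
    rw [Real.sqrt_eq_rpow, ← Real.rpow_mul (by positivity)]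
    have e : (1 : ℝ) / 2 * (1 / (16 * Real.log (s + 1))) = 1 / 32 / Real.log (s + 1) := by
      rw [div_mul_div_comm, div_div, one_mul]
      ring_nf
    rw [e]
    exact h
  · obtain ⟨⟨c, C, hc, hC, h⟩, -⟩ := Pool.Agent.Helper1.TY.main2 q t d hq ht hd
    exact ⟨c, C, hc, hC, fun n hn => ⟨fun A P hP => (h n hn).1 A P hP,
      fun h2 P hP1 hP2 => (h n hn).2.1 h2 P hP1 hP2⟩⟩

end Pool.Agent.Results.MP_12a1af_nt.NoEasyChoice
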